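import Pool.Agent.Lib.MP_1c3690_al.Prod.Wreath

set_option autoImplicit false
set_option linter.unusedSectionVars false

namespace Pool.Agent.SmallVar.Prod

/-- the first variety is not trivial -/
def NT (SU : Set (FreeGroup ℕ)) : Prop :=
  ∃ (C : Type) (_ : CommGroup C) (c : C), c ≠ 1 ∧ Subgroup.zpowers c = ⊤ ∧ InVar SU C

lemma NT.of_nontrivial {SU : Set (FreeGroup ℕ)} {H : Type} [Group H] (hH : InVar SU H) (u : H)
    (hu : u ≠ 1) : NT SU := by
  have hcomm : ∀ a ∈ Subgroup.zpowers u, ∀ b ∈ Subgroup.zpowers u, a * b = b * a := by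
    rintro _ ⟨m, rfl⟩ _ ⟨n, rfl⟩
    show u ^ m * u ^ n = u ^ n * u ^ m
    rw [← zpow_add, ← zpow_add, add_comm]
  refine ⟨Subgroup.zpowers u, cg _ hcomm, ⟨u, Subgroup.mem_zpowers u⟩, ?_, ?_, ?_⟩
  · intro h
    exact hu (congrArg Subtype.val h)
  · rw [eq_top_iff]
    rintro ⟨x, n, rfl⟩ _
    exact ⟨n, Subtype.ext rfl⟩
  · exact hH.subgroup (Subgroup.zpowers u)

lemma fg_prod {G H : Type} [Group G] [Group H] (hG : Group.FG G) (hH : Group.FG H) :
    Group.FG (G × H) := by
  rw [Group.fg_def] at hG hH ⊢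
  have := hG.prod hH
  rwa [Subgroup.top_prod_top] at this

/-- abelian subgroups of finitely generated groups in the second factor are finitely generated -/
theorem SmallProd.abelian_fg {SU SW : Set (FreeGroup ℕ)} (hS : SmallProd SU SW) (hU : NT SU)
    {Γ : Type} [Group Γ] (hΓ : Group.FG Γ) (hW : InVar SW Γ) (B : Subgroup Γ)
    (hB : ∀ a ∈ B, ∀ b ∈ B, a * b = b * a) : B.FG := by
  let _ : CommGroup B := cg B hB
  have few : Few2 ℤ (Additive B) := by
    rintro ⟨f, hf⟩
    let F : Set ℕ → Subgroup (Γ × Γ) := fun s =>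
      { carrier := {p | ∃ a b : B, (a : Γ) = p.1 ∧ (b : Γ) = p.2 ∧
          (Additive.ofMul a, Additive.ofMul b) ∈ f s}
        one_mem' := ⟨1, 1, rfl, rfl, by
          rw [ofMul_one]; exact zero_mem _⟩
        mul_mem' := by
          rintro p q ⟨a, b, h1, h2, h3⟩ ⟨a', b', h1', h2', h3'⟩
          refine ⟨a * a', b * b', ?_, ?_, ?_⟩
          · show (a : Γ) * a' = p.1 * q.1
            rw [h1, h1']
          · show (b : Γ) * b' = p.2 * q.2
            rw [h2, h2']
          · exact add_mem h3 h3'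
        inv_mem' := by
          rintro p ⟨a, b, h1, h2, h3⟩
          refine ⟨a⁻¹, b⁻¹, ?_, ?_, ?_⟩
          · show (a : Γ)⁻¹ = p.1⁻¹
            rw [h1]
          · show (b : Γ)⁻¹ = p.2⁻¹
            rw [h2]
          · exact neg_mem h3 }
    have hF : ∀ s p, p ∈ F s ↔ ∃ a b : B, (a : Γ) = p.1 ∧ (b : Γ) = p.2 ∧
          (Additive.ofMul a, Additive.ofMul b) ∈ f s := fun s p => Iff.rfl
    refine hS.few_subgroups hU (fg_prod hΓ hΓ) (hW.prod hW) F ?_
    intro s t hst
    have key : ∀ s t, F s = F t → f s ≤ f t := by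
      rintro s t hst ⟨x, y⟩ hxy
      have h1 : ((x.toMul : Γ), (y.toMul : Γ)) ∈ F s := (hF _ _).2
        ⟨x.toMul, y.toMul, rfl, rfl, hxy⟩
      rw [hst, hF] at h1
      obtain ⟨a', b', h2, h3, h4⟩ := h1
      have h5 : a' = x.toMul := Subtype.ext h2
      have h6 : b' = y.toMul := Subtype.ext h3
      rw [h5, h6] at h4
      exact h4
    exact hf (le_antisymm (key _ _ hst) (key _ _ hst.symm))
  have hn : IsNoetherian ℤ (Additive B) := isNoetherian_of_few2 few
  have hf : Module.Finite ℤ (Additive B) := inferInstance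
  rw [Module.Finite.iff_addGroup_fg] at hf
  have hg : Group.FG B := GroupFG.iff_add_fg.2 hf
  exact Group.fg_iff_subgroup_fg B |>.1 hg

/-- abelian finitely generated subgroups have a series with cyclic factors -/
lemma pser_of_comm {Γ : Type} [Group Γ] (B : Subgroup Γ)
    (hB : ∀ a ∈ B, ∀ b ∈ B, a * b = b * a) (hfg : B.FG) : PSer B := by
  classical
  obtain ⟨s, rfl⟩ := hfg
  have key : ∀ t : Finset Γ, t ⊆ s → PSer (Subgroup.closure (t : Set Γ)) := by
    intro t
    induction t using Finset.induction_on with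
    | empty =>
      intro _
      rw [Finset.coe_empty, Subgroup.closure_empty]
      exact PSer.bot
    | insert a t _ ih =>
      intro ht
      have h1 : a ∈ Subgroup.closure (s : Set Γ) :=
        Subgroup.subset_closure (ht (Finset.mem_insert_self a t))
      have hts : t ⊆ s := fun x hx => ht (Finset.mem_insert_of_mem hx)
      have h2 : Subgroup.closure (t : Set Γ) ≤ Subgroup.closure (s : Set Γ) :=
        Subgroup.closure_mono (by exact_mod_cast hts)
      have h3 : Subgroup.closure ((insert a t : Finset Γ) : Set Γ) =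
          Subgroup.closure (t : Set Γ) ⊔ Subgroup.zpowers a := by
        rw [Finset.coe_insert, Set.insert_eq, Subgroup.closure_union,
          ← Subgroup.zpowers_eq_closure, sup_comm]
      rw [h3]
      refine PSer.step _ a (ih hts) ?_ ?_
      · intro h hh
        rw [hB a h1 h (h2 hh), mul_inv_cancel_right]
        exact hh
      · intro h hh
        rw [mul_assoc, hB h (h2 hh) a h1, inv_mul_cancel_left]
        exact hh
  exact key s (Finset.Subset.refl s)

/-- lifting a series from a quotient -/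
lemma PSer.lift {Γ : Type} [Group Γ] (A : Subgroup Γ) [A.Normal] (hA : PSer A)
    {H : Subgroup (Γ ⧸ A)} (hH : PSer H) : PSer (H.comap (QuotientGroup.mk' A)) := by
  induction hH with
  | bot =>
    have : (⊥ : Subgroup (Γ ⧸ A)).comap (QuotientGroup.mk' A) = A := by
      rw [MonoidHom.comap_bot, QuotientGroup.ker_mk']
    rw [this]
    exact hA
  | step H t _ h1 h2 ih =>
    obtain ⟨g, rfl⟩ := QuotientGroup.mk'_surjective A t
    have h3 : (H ⊔ Subgroup.zpowers (QuotientGroup.mk' A g)).comap (QuotientGroup.mk' A) =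
        H.comap (QuotientGroup.mk' A) ⊔ Subgroup.zpowers g := by
      apply le_antisymm
      · intro x hx
        obtain ⟨h, hh, n, hn⟩ := (mem_sup_zp h1 h2).1 (Subgroup.mem_comap.1 hx)
        have h4 : x * (g ^ n)⁻¹ ∈ H.comap (QuotientGroup.mk' A) := by
          rw [Subgroup.mem_comap, map_mul, map_inv, map_zpow, ← hn, mul_inv_cancel_right]
          exact hh
        have h5 := mul_mem (Subgroup.mem_sup_left (T := Subgroup.zpowers g) h4)
          (Subgroup.mem_sup_right (S := H.comap (QuotientGroup.mk' A))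
            (show g ^ n ∈ Subgroup.zpowers g from ⟨n, rfl⟩))
        rwa [inv_mul_cancel_right] at h5
      · refine sup_le (Subgroup.comap_mono le_sup_left) ?_
        rw [Subgroup.zpowers_le]
        exact Subgroup.mem_sup_right (Subgroup.mem_zpowers _)
    rw [h3]
    refine PSer.step _ g ih ?_ ?_
    · intro h hh
      rw [Subgroup.mem_comap, map_mul, map_mul, map_inv]
      exact h1 _ hh
    · intro h hh
      rw [Subgroup.mem_comap, map_mul, map_mul, map_inv]
      exact h2 _ hh

/-- finitely generated soluble groups in the second factor are polycyclic -/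
theorem SmallProd.pser {SU SW : Set (FreeGroup ℕ)} (hS : SmallProd SU SW) (hU : NT SU) (d : ℕ) :
    ∀ (Γ : Type) [Group Γ], Group.FG Γ → InVar SW Γ → derivedSeries Γ d = ⊥ →
      PSer (⊤ : Subgroup Γ) := by
  induction d with
  | zero =>
    intro Γ _ _ _ hd
    rw [derivedSeries_zero] at hd
    rw [hd]
    exact PSer.bot
  | succ d ih =>
    intro Γ _ hΓ hW hd
    have hcomm : ∀ a ∈ derivedSeries Γ d, ∀ b ∈ derivedSeries Γ d, a * b = b * a := by
      intro a ha b hb
      have h1 := Subgroup.commutator_mem_commutator ha hb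
      rw [← derivedSeries_succ, hd, Subgroup.mem_bot, commutatorElement_eq_one_iff_mul_comm] at h1
      exact h1
    have hfg := hS.abelian_fg hU hΓ hW (derivedSeries Γ d) hcomm
    have hA := pser_of_comm (derivedSeries Γ d) hcomm hfg
    have hq : derivedSeries (Γ ⧸ derivedSeries Γ d) d = ⊥ := by
      have h1 := map_derivedSeries_eq (QuotientGroup.mk'_surjective (derivedSeries Γ d)) d
      rw [← h1, Subgroup.map_eq_bot_iff, QuotientGroup.ker_mk']
    have hfq : Group.FG (Γ ⧸ derivedSeries Γ d) := by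
      have := hΓ
      infer_instance
    have h2 := ih (Γ ⧸ derivedSeries Γ d) hfq (hW.quotient _) hq
    have h3 := PSer.lift (derivedSeries Γ d) hA h2
    rwa [Subgroup.comap_top] at h3

/-- small product varieties -/
theorem SmallProd.maxn {SU SW : Set (FreeGroup ℕ)} (hS : SmallProd SU SW)
    (hU : ∃ (H : Type) (_ : Group H), Nontrivial H ∧ InVar SU H)
    (hW : InVar SW (Multiplicative ℤ))
    (hWs : ∀ (H : Type) [Group H], Group.FG H → InVar SW H →
      ∃ K : Subgroup H, K.FiniteIndex ∧ Group.IsSolvable K)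
    (G : Type) [Group G] (hG : Group.FG G) (hV : InProd SU SW G) : MaxN G := by
  obtain ⟨H, _, hH1, hH2⟩ := hU
  obtain ⟨u, hu⟩ := exists_ne (1 : H)
  have hNT : NT SU := NT.of_nontrivial hH2 u hu
  obtain ⟨N, hN, h1, h2⟩ := hV
  have hcomm : ∀ a ∈ N, ∀ b ∈ N, a * b = b * a := by
    intro a ha b hb
    exact congrArg Subtype.val (hS.comm hW h1 (⟨a, ha⟩ : N) ⟨b, hb⟩)
  have hfq : Group.FG (G ⧸ N) := by
    have := hG
    infer_instance
  obtain ⟨K, hK, hKs⟩ := hWs (G ⧸ N) hfq h2
  have hKfg : Group.FG K := by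
    have := hfq
    have := hK
    infer_instance
  obtain ⟨d, hd⟩ := (Group.isSolvable_def K).1 hKs
  exact hall_virtual hG N hcomm K hK (hS.pser hNT d K hKfg (h2.subgroup K) hd)

end Pool.Agent.SmallVar.Prod
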