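import Pool.Agent.Lib.MP_1c3690_al.Prod.Poly

set_option autoImplicit false
set_option linter.unusedSectionVars false

namespace Pool.Agent.SmallVar.Prod

open Pool.Agent.SmallVar.Nil

/-- chains of normal subgroups inside a normal subgroup which is a Noetherian module -/
theorem chain_noeth {G : Type} [Group G] (A : Subgroup G) (hAn : A.Normal)
    {R : Type} [Ring R] {M : Type} [AddCommGroup M] [Module R M]
    (hn : IsNoetherian R M)
    (e : A → M) (he : Function.Bijective e) (hmul : ∀ a b, e (a * b) = e a + e b)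
    (u : G → R) (hu : ∀ (g : G) (a b : A), (b : G) = g * a * g⁻¹ → e b = u g • e a)
    (hR : ∀ P : AddSubgroup M, (∀ g, ∀ x ∈ P, u g • x ∈ P) → ∀ (r : R), ∀ x ∈ P, r • x ∈ P)
    (N : ℕ → Subgroup G) (hN : ∀ n, (N n).Normal) (hmono : Monotone N)
    (hle : ∀ n, N n ≤ A) : ∃ n, ∀ m, n ≤ m → N m = N n := by
  have he1 : e 1 = 0 := by
    have := hmul 1 1
    rw [mul_one] at this
    exact left_eq_add.1 this
  have heinv : ∀ a, e a⁻¹ = - e a := by
    intro a
    have := hmul a a⁻¹
    rw [mul_inv_cancel, he1] at this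
    exact (neg_eq_of_add_eq_zero_right this.symm).symm
  let Q : ℕ → AddSubgroup M := fun n =>
    { carrier := {x | ∃ a : A, (a : G) ∈ N n ∧ e a = x}
      zero_mem' := ⟨1, one_mem _, he1⟩
      add_mem' := by
        rintro _ _ ⟨a, ha, rfl⟩ ⟨b, hb, rfl⟩
        exact ⟨a * b, mul_mem ha hb, hmul a b⟩
      neg_mem' := by
        rintro _ ⟨a, ha, rfl⟩
        exact ⟨a⁻¹, inv_mem ha, heinv a⟩ }
  have hQ : ∀ n x, x ∈ Q n ↔ ∃ a : A, (a : G) ∈ N n ∧ e a = x := fun n x => Iff.rfl
  let P : ℕ → Submodule R M := fun n =>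
    { carrier := Q n
      zero_mem' := zero_mem _
      add_mem' := fun h1 h2 => add_mem h1 h2
      smul_mem' := by
        intro r x hx
        refine hR (Q n) ?_ r x hx
        intro g x hx
        rw [hQ] at hx ⊢
        obtain ⟨a, ha, rfl⟩ := hx
        exact ⟨⟨g * a * g⁻¹, hAn.conj_mem a a.2 g⟩, (hN n).conj_mem a ha g, hu g a _ rfl⟩ }
  have hP : ∀ n x, x ∈ P n ↔ ∃ a : A, (a : G) ∈ N n ∧ e a = x := fun n x => Iff.rfl
  have hPm : Monotone P := by
    intro i j hij x hx
    rw [hP] at hx ⊢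
    obtain ⟨a, ha, rfl⟩ := hx
    exact ⟨a, hmono hij ha, rfl⟩
  obtain ⟨n, hn⟩ := monotone_stabilizes_iff_noetherian.2 hn ⟨P, hPm⟩
  refine ⟨n, fun m hm => le_antisymm ?_ (hmono hm)⟩
  intro x hx
  have h1 : P n = P m := hn m hm
  have h2 : e ⟨x, hle m hx⟩ ∈ P m := (hP _ _).2 ⟨_, hx, rfl⟩
  rw [← h1, hP] at h2
  obtain ⟨a, ha, hae⟩ := h2
  have h3 := he.1 hae
  rw [h3] at ha
  exact ha

/-- finite generation of the module -/
lemma finite_of_normalClosure {G : Type} [Group G] (A : Subgroup G) (hAn : A.Normal)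
    {R : Type} [Ring R] {M : Type} [AddCommGroup M] [Module R M]
    (e : A → M) (he : Function.Bijective e) (hmul : ∀ a b, e (a * b) = e a + e b)
    (u : G → R) (hu : ∀ (g : G) (a b : A), (b : G) = g * a * g⁻¹ → e b = u g • e a)
    (T : Set G) (hT : T.Finite) (hTA : T ⊆ A) (hA : A ≤ Subgroup.normalClosure T) :
    Module.Finite R M := by
  have he1 : e 1 = 0 := by
    have := hmul 1 1
    rw [mul_one] at this
    exact left_eq_add.1 this
  have heinv : ∀ a, e a⁻¹ = - e a := by
    intro a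
    have := hmul a a⁻¹
    rw [mul_inv_cancel, he1] at this
    exact (neg_eq_of_add_eq_zero_right this.symm).symm
  obtain ⟨U, hU⟩ : ∃ U : Set M, U = e '' {a : A | (a : G) ∈ T} := ⟨_, rfl⟩
  have hUf : U.Finite := by
    rw [hU]
    apply Set.Finite.image
    exact hT.preimage (Subtype.val_injective.injOn)
  refine ⟨⟨hUf.toFinset, ?_⟩⟩
  rw [Set.Finite.coe_toFinset]
  let Z : Subgroup G :=
    { carrier := {g | ∃ a : A, (a : G) = g ∧ e a ∈ Submodule.span R U}
      one_mem' := ⟨1, rfl, by rw [he1]; exact zero_mem _⟩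
      mul_mem' := by
        rintro _ _ ⟨a, rfl, ha⟩ ⟨b, rfl, hb⟩
        exact ⟨a * b, rfl, by rw [hmul]; exact add_mem ha hb⟩
      inv_mem' := by
        rintro _ ⟨a, rfl, ha⟩
        exact ⟨a⁻¹, rfl, by rw [heinv]; exact neg_mem ha⟩ }
  have hZ : ∀ g, g ∈ Z ↔ ∃ a : A, (a : G) = g ∧ e a ∈ Submodule.span R U := fun g => Iff.rfl
  have hZn : Z.Normal := by
    refine ⟨fun x hx g => ?_⟩
    rw [hZ] at hx ⊢
    obtain ⟨a, rfl, ha⟩ := hx
    refine ⟨⟨g * a * g⁻¹, hAn.conj_mem a a.2 g⟩, rfl, ?_⟩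
    rw [hu g a ⟨g * a * g⁻¹, hAn.conj_mem a a.2 g⟩ rfl]
    exact Submodule.smul_mem _ _ ha
  have h1 : Subgroup.normalClosure T ≤ Z := by
    apply Subgroup.normalClosure_le_normal
    intro x hx
    exact ⟨⟨x, hTA hx⟩, rfl, Submodule.subset_span (by rw [hU]; exact ⟨⟨x, hTA hx⟩, hx, rfl⟩)⟩
  rw [eq_top_iff]
  intro x _
  obtain ⟨a, rfl⟩ := he.2 x
  obtain ⟨b, hb, hb2⟩ := (hZ _).1 (h1 (hA a.2))
  have : b = a := Subtype.ext hb
  rwa [this] at hb2

/-- P. Hall: finitely generated abelian-by-polycyclic groups have the maximal condition on normal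
subgroups -/
theorem hall_maxn {G Q : Type} [Group G] [Group Q] (hG : Group.FG G) (π : G →* Q)
    (hπ : Function.Surjective π) (hQ : PSer (⊤ : Subgroup Q))
    (hcomm : ∀ a ∈ π.ker, ∀ b ∈ π.ker, a * b = b * a) : MaxN G := by
  obtain ⟨T, hT, hTA, hAT⟩ := ker_fg π hQ hG hπ
  obtain ⟨A, hA⟩ : ∃ A : Subgroup G, A = π.ker := ⟨_, rfl⟩
  have hQ' : PSer (⊤ : Subgroup (G ⧸ π.ker)) :=
    hQ.map_top (QuotientGroup.quotientKerEquivOfSurjective π hπ).symm.toMonoidHom
      (QuotientGroup.quotientKerEquivOfSurjective π hπ).symm.surjective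
  rw [← hA] at hTA hAT hcomm
  have hAn : A.Normal := by rw [hA]; infer_instance
  have hQ2 : PSer (⊤ : Subgroup (G ⧸ A)) := by
    subst hA
    exact hQ'
  let _ : CommGroup A := cg A hcomm
  let cj : G → A → A := fun g a => ⟨g * a * g⁻¹, hAn.conj_mem a a.2 g⟩
  let ρ₀ : G →* Module.End ℤ (Additive A) :=
    { toFun := fun g =>
        { toFun := fun a => Additive.ofMul (cj g a.toMul)
          map_add' := by
            intro a b
            apply Additive.toMul.injective
            apply Subtype.ext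
            show g * ((a.toMul : G) * (b.toMul : G)) * g⁻¹ =
              (g * (a.toMul : G) * g⁻¹) * (g * (b.toMul : G) * g⁻¹)
            group
          map_smul' := by
            intro k a
            apply Additive.toMul.injective
            apply Subtype.ext
            show g * ((a.toMul : G) ^ k) * g⁻¹ = (g * (a.toMul : G) * g⁻¹) ^ k
            rw [conj_zpow] }
      map_one' := by
        ext a
        show (1 : G) * (a.toMul : G) * (1 : G)⁻¹ = (a.toMul : G)
        group
      map_mul' := by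
        intro g h
        ext a
        show (g * h) * (a.toMul : G) * (g * h)⁻¹ = g * (h * (a.toMul : G) * h⁻¹) * g⁻¹
        group }
  have hρ₀ : ∀ g a, ρ₀ g a = Additive.ofMul (cj g a.toMul) := fun g a => rfl
  have hker : A ≤ ρ₀.ker := by
    intro d hd
    rw [MonoidHom.mem_ker]
    apply LinearMap.ext
    intro a
    rw [hρ₀]
    apply Additive.toMul.injective
    apply Subtype.ext
    show d * (a.toMul : G) * d⁻¹ = (a.toMul : G)
    rw [hcomm d hd _ a.toMul.2]
    group
  let ρ : Representation ℤ (G ⧸ A) (Additive A) := QuotientGroup.lift A ρ₀ hker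
  have hρ : ∀ (g : G) (a : Additive A), ρ (g : G ⧸ A) a =
      Additive.ofMul (cj g a.toMul) := fun g a => rfl
  have hn : IsNoetherianRing (MonoidAlgebra ℤ (G ⧸ A)) := by
    refine noeth_of_pser (O := ℤ) (MonoidAlgebra.of ℤ (G ⧸ A)) hQ2 ?_
    intro x
    induction x using MonoidAlgebra.induction_on with
    | of g => exact Algebra.subset_adjoin ⟨g, rfl⟩
    | add r s hr hs => exact add_mem hr hs
    | smul k r hr => exact Subalgebra.smul_mem _ hr k
  have he : Function.Bijective (fun a : A => ρ.asModuleEquiv.symm (Additive.ofMul a)) :=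
    ρ.asModuleEquiv.symm.bijective.comp Additive.ofMul.bijective
  have hmul : ∀ a b : A, ρ.asModuleEquiv.symm (Additive.ofMul (a * b)) =
      ρ.asModuleEquiv.symm (Additive.ofMul a) + ρ.asModuleEquiv.symm (Additive.ofMul b) := by
    intro a b
    rw [ofMul_mul, map_add]
  have hu : ∀ (g : G) (a b : A), (b : G) = g * a * g⁻¹ →
      ρ.asModuleEquiv.symm (Additive.ofMul b) =
        MonoidAlgebra.of ℤ _ (g : G ⧸ A) • ρ.asModuleEquiv.symm (Additive.ofMul a) := by
    intro g a b hb
    rw [← Representation.asModuleEquiv_symm_map_rho, hρ]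
    have : b = cj g a := Subtype.ext hb
    rw [this]
    rfl
  have hR : ∀ P : AddSubgroup ρ.asModule,
      (∀ g : G, ∀ x ∈ P, MonoidAlgebra.of ℤ _ (g : G ⧸ A) • x ∈ P) →
      ∀ (r : MonoidAlgebra ℤ (G ⧸ A)), ∀ x ∈ P, r • x ∈ P := by
    intro P hP r
    induction r using MonoidAlgebra.induction_on with
    | of g =>
      intro x hx
      obtain ⟨g, rfl⟩ := QuotientGroup.mk_surjective g
      exact hP g x hx
    | add r s hr hs =>
      intro x hx
      rw [add_smul]
      exact add_mem (hr x hx) (hs x hx)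
    | smul k r hr =>
      intro x hx
      have h1 : (k • r) • x = k • (r • x) := by
        rw [smul_assoc]
      rw [h1]
      exact zsmul_mem (hr x hx) k
  have hfin : Module.Finite (MonoidAlgebra ℤ (G ⧸ A)) ρ.asModule :=
    finite_of_normalClosure A hAn (fun a : A => ρ.asModuleEquiv.symm (Additive.ofMul a)) he hmul
      (fun g => MonoidAlgebra.of ℤ _ (g : G ⧸ A)) hu T hT hTA hAT
  have hnM : IsNoetherian (MonoidAlgebra ℤ (G ⧸ A)) ρ.asModule := inferInstance
  intro N hN hmono
  obtain ⟨n1, h1⟩ := chain_noeth A hAn hnM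
    (fun a : A => ρ.asModuleEquiv.symm (Additive.ofMul a)) he hmul
    (fun g => MonoidAlgebra.of ℤ _ (g : G ⧸ A)) hu hR (fun n => N n ⊓ A)
    (fun n => by have := hN n; infer_instance)
    (fun i j hij => inf_le_inf_right _ (hmono hij)) (fun n => inf_le_right)
  obtain ⟨n2, h2⟩ := pser_chain hQ2 (fun n => (N n ⊔ A).map (QuotientGroup.mk' A))
    (fun i j hij => Subgroup.map_mono (sup_le_sup_right (hmono hij) _)) (fun n => le_top)
  refine ⟨max n1 n2, fun m hm => ?_⟩
  have h3 : n1 ≤ m := (le_max_left _ _).trans hm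
  have h4 : n2 ≤ m := (le_max_right _ _).trans hm
  refine eq_of_modular _ _ A (hN _) (hmono hm) ?_ ?_
  · have h5 : N m ⊓ A = N (max n1 n2) ⊓ A :=
      (h1 m h3).trans (h1 _ (le_max_left _ _)).symm
    rw [h5]
    exact inf_le_left
  · have h6 : (N m ⊔ A).map (QuotientGroup.mk' A) = (N (max n1 n2) ⊔ A).map
        (QuotientGroup.mk' A) := (h2 m h4).trans (h2 _ (le_max_right _ _)).symm
    have h7 := Subgroup.map_injective_of_ker_le (QuotientGroup.mk' A)
      ((QuotientGroup.ker_mk' A).trans_le le_sup_right)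
      ((QuotientGroup.ker_mk' A).trans_le le_sup_right) h6
    rw [← h7]
    exact le_sup_left

lemma maxn_of_finiteIndex {G : Type} [Group G] (K : Subgroup G) (hK : K.FiniteIndex)
    (h : MaxN K) : MaxN G := by
  intro N hN hmono
  obtain ⟨n1, h1⟩ := h (fun n => (N n).subgroupOf K)
    (fun n => by have := hN n; infer_instance) (fun i j hij x hx => hmono hij hx)
  obtain ⟨n2, h2⟩ := chain_over_finite K hK (fun n => N n ⊔ K)
    (fun i j hij => sup_le_sup_right (hmono hij) _) (fun n => le_sup_right)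
  refine ⟨max n1 n2, fun m hm => ?_⟩
  have h3 : n1 ≤ m := (le_max_left _ _).trans hm
  have h4 : n2 ≤ m := (le_max_right _ _).trans hm
  refine eq_of_modular _ _ K (hN _) (hmono hm) ?_ ?_
  · have h5 : (N m).subgroupOf K = (N (max n1 n2)).subgroupOf K :=
      (h1 m h3).trans (h1 _ (le_max_left _ _)).symm
    rw [Subgroup.subgroupOf_inj] at h5
    rw [h5]
    exact inf_le_left
  · have h6 : N m ⊔ K = N (max n1 n2) ⊔ K :=
      (h2 m h4).trans (h2 _ (le_max_right _ _)).symm
    rw [← h6]
    exact le_sup_left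

/-- finitely generated abelian-by-(virtually polycyclic) groups -/
theorem hall_virtual {G : Type} [Group G] (hG : Group.FG G) (A : Subgroup G) [A.Normal]
    (hcomm : ∀ a ∈ A, ∀ b ∈ A, a * b = b * a) (K : Subgroup (G ⧸ A)) (hK : K.FiniteIndex)
    (hP : PSer (⊤ : Subgroup K)) : MaxN G := by
  have hL : (K.comap (QuotientGroup.mk' A)).FiniteIndex := by
    refine ⟨?_⟩
    rw [Subgroup.index_comap_of_surjective _ (QuotientGroup.mk'_surjective A)]
    exact hK.index_ne_zero
  apply maxn_of_finiteIndex (K.comap (QuotientGroup.mk' A)) hL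
  have hfg : Group.FG (K.comap (QuotientGroup.mk' A)) := by
    have := hG
    infer_instance
  refine hall_maxn hfg ((QuotientGroup.mk' A).subgroupComap K)
    (MonoidHom.subgroupComap_surjective_of_surjective _ _ (QuotientGroup.mk'_surjective A))
    hP ?_
  intro a ha b hb
  have h1 : ∀ x : K.comap (QuotientGroup.mk' A),
      x ∈ ((QuotientGroup.mk' A).subgroupComap K).ker → (x : G) ∈ A := by
    intro x hx
    rw [MonoidHom.mem_ker] at hx
    exact (QuotientGroup.eq_one_iff _).1 (congrArg Subtype.val hx)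
  exact Subtype.ext (hcomm a (h1 a ha) b (h1 b hb))

end Pool.Agent.SmallVar.Prod
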