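import Pool.Agent.Lib.MP_1c3690_al.Nil.Group

set_option autoImplicit false
set_option linter.unusedSectionVars false

namespace Pool.Agent.SmallVar.Prod

open Pool.Agent.SmallVar.Nil

/-- the subgroup is reached by a subnormal series with cyclic factors -/
inductive PSer {Γ : Type} [Group Γ] : Subgroup Γ → Prop
  | bot : PSer ⊥
  | step (H : Subgroup Γ) (t : Γ) : PSer H → (∀ h ∈ H, t * h * t⁻¹ ∈ H) →
      (∀ h ∈ H, t⁻¹ * h * t ∈ H) → PSer (H ⊔ Subgroup.zpowers t)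

section
variable {Γ : Type} [Group Γ]

lemma conj_zpow_mem {H : Subgroup Γ} {t : Γ} (h1 : ∀ h ∈ H, t * h * t⁻¹ ∈ H)
    (h2 : ∀ h ∈ H, t⁻¹ * h * t ∈ H) (n : ℤ) : ∀ h ∈ H, t ^ n * h * (t ^ n)⁻¹ ∈ H := by
  induction n using Int.induction_on with
  | zero => intro h hh; simpa using hh
  | succ n ih =>
    intro h hh
    have := h1 _ (ih h hh)
    have h3 : t * (t ^ (n : ℤ) * h * (t ^ (n : ℤ))⁻¹) * t⁻¹ =
        t ^ ((n : ℤ) + 1) * h * (t ^ ((n : ℤ) + 1))⁻¹ := by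
      rw [add_comm, zpow_add, zpow_one]; group
    rwa [h3] at this
  | pred n ih =>
    intro h hh
    have := h2 _ (ih h hh)
    have h3 : t⁻¹ * (t ^ (-(n : ℤ)) * h * (t ^ (-(n : ℤ)))⁻¹) * t =
        t ^ (-(n : ℤ) - 1) * h * (t ^ (-(n : ℤ) - 1))⁻¹ := by
      rw [sub_eq_add_neg, add_comm, zpow_add, zpow_neg_one]; group
    rwa [h3] at this

lemma mem_sup_zp {H : Subgroup Γ} {t : Γ} (h1 : ∀ h ∈ H, t * h * t⁻¹ ∈ H)
    (h2 : ∀ h ∈ H, t⁻¹ * h * t ∈ H) {x : Γ} :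
    x ∈ H ⊔ Subgroup.zpowers t ↔ ∃ h ∈ H, ∃ n : ℤ, h * t ^ n = x := by
  constructor
  · intro hx
    let Z : Subgroup Γ :=
      { carrier := {x | ∃ h ∈ H, ∃ n : ℤ, h * t ^ n = x}
        one_mem' := ⟨1, one_mem _, 0, by rw [zpow_zero, mul_one]⟩
        mul_mem' := by
          rintro _ _ ⟨h, hh, n, rfl⟩ ⟨h', hh', m, rfl⟩
          refine ⟨h * (t ^ n * h' * (t ^ n)⁻¹), mul_mem hh (conj_zpow_mem h1 h2 n h' hh'),
            n + m, ?_⟩
          rw [zpow_add]; group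
        inv_mem' := by
          rintro _ ⟨h, hh, n, rfl⟩
          refine ⟨t ^ (-n) * h⁻¹ * (t ^ (-n))⁻¹, conj_zpow_mem h1 h2 (-n) _ (inv_mem hh),
            -n, ?_⟩
          rw [zpow_neg]; group }
    have hle : H ⊔ Subgroup.zpowers t ≤ Z := by
      refine sup_le (fun h hh => ⟨h, hh, 0, by rw [zpow_zero, mul_one]⟩) ?_
      rintro _ ⟨n, rfl⟩
      exact ⟨1, one_mem _, n, one_mul _⟩
    exact hle hx
  · rintro ⟨h, hh, n, rfl⟩
    exact mul_mem (Subgroup.mem_sup_left hh) (Subgroup.mem_sup_right ⟨n, rfl⟩)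

lemma PSer.map {Γ' : Type} [Group Γ'] (φ : Γ →* Γ') {H : Subgroup Γ} (hH : PSer H) :
    PSer (H.map φ) := by
  induction hH with
  | bot => rw [Subgroup.map_bot]; exact PSer.bot
  | step H t _ h1 h2 ih =>
    rw [Subgroup.map_sup, MonoidHom.map_zpowers]
    refine PSer.step _ _ ih ?_ ?_
    · rintro _ ⟨h, hh, rfl⟩
      exact ⟨t * h * t⁻¹, h1 h hh, by rw [map_mul, map_mul, map_inv]⟩
    · rintro _ ⟨h, hh, rfl⟩
      exact ⟨t⁻¹ * h * t, h2 h hh, by rw [map_mul, map_mul, map_inv]⟩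

lemma PSer.map_top {Γ' : Type} [Group Γ'] (φ : Γ →* Γ') (hφ : Function.Surjective φ)
    (hH : PSer (⊤ : Subgroup Γ)) : PSer (⊤ : Subgroup Γ') := by
  have := hH.map φ
  rwa [Subgroup.map_top_of_surjective φ hφ] at this

/-- the maximal condition on subgroups -/
lemma pser_chain {H : Subgroup Γ} (hH : PSer H) : ∀ L : ℕ → Subgroup Γ, Monotone L →
    (∀ n, L n ≤ H) → ∃ n, ∀ m, n ≤ m → L m = L n := by
  induction hH with
  | bot =>
    intro L _ hle
    exact ⟨0, fun m _ => by rw [le_bot_iff.1 (hle m), le_bot_iff.1 (hle 0)]⟩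
  | step H t hH hc1 hc2 ih =>
    intro L hL hle
    obtain ⟨n1, h1⟩ := ih (fun n => L n ⊓ H) (fun i j hij => inf_le_inf_right _ (hL hij))
      (fun n => inf_le_right)
    let E : ℕ → AddSubgroup ℤ := fun n =>
      { carrier := {a | ∃ h ∈ H, h * t ^ a ∈ L n}
        zero_mem' := ⟨1, one_mem _, by rw [zpow_zero, mul_one]; exact one_mem _⟩
        add_mem' := by
          rintro a b ⟨h, hh, h2⟩ ⟨h', hh', h3⟩
          refine ⟨h * (t ^ a * h' * (t ^ a)⁻¹), mul_mem hh (conj_zpow_mem hc1 hc2 a h' hh'), ?_⟩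
          have h4 : h * (t ^ a * h' * (t ^ a)⁻¹) * t ^ (a + b) =
              (h * t ^ a) * (h' * t ^ b) := by
            rw [zpow_add]; group
          rw [h4]
          exact mul_mem h2 h3
        neg_mem' := by
          rintro a ⟨h, hh, h2⟩
          refine ⟨t ^ (-a) * h⁻¹ * (t ^ (-a))⁻¹, conj_zpow_mem hc1 hc2 (-a) _ (inv_mem hh), ?_⟩
          have h4 : t ^ (-a) * h⁻¹ * (t ^ (-a))⁻¹ * t ^ (-a) = (h * t ^ a)⁻¹ := by
            rw [zpow_neg]; group
          rw [h4]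
          exact inv_mem h2 }
    have hE : ∀ n a, a ∈ E n ↔ ∃ h ∈ H, h * t ^ a ∈ L n := fun n a => Iff.rfl
    obtain ⟨n2, h2⟩ := monotone_stabilizes_iff_noetherian.2 (inferInstance : IsNoetherian ℤ ℤ)
      ⟨fun n => AddSubgroup.toIntSubmodule (E n), fun i j hij => by
        apply AddSubgroup.toIntSubmodule.monotone
        rintro a ⟨h, hh, h3⟩
        exact ⟨h, hh, hL hij h3⟩⟩
    refine ⟨max n1 n2, fun m hm => le_antisymm ?_ (hL hm)⟩
    have h3 : n1 ≤ m := (le_max_left _ _).trans hm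
    have h4 : n2 ≤ m := (le_max_right _ _).trans hm
    intro x hx
    obtain ⟨h, hh, a, rfl⟩ := (mem_sup_zp hc1 hc2).1 (hle m hx)
    have h5 : E n2 = E m := AddSubgroup.toIntSubmodule.injective (h2 m h4)
    have h6 : a ∈ E m := ⟨h, hh, hx⟩
    rw [← h5, hE] at h6
    obtain ⟨h', hh', h7⟩ := h6
    have h8 : h' * t ^ a ∈ L (max n1 n2) := hL (le_max_right _ _) h7
    have h9 : h * h'⁻¹ ∈ L m ⊓ H := by
      refine ⟨?_, H.mul_mem hh (H.inv_mem hh')⟩
      have := (L m).mul_mem hx ((L m).inv_mem (hL hm h8))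
      have h10 : h * t ^ a * (h' * t ^ a)⁻¹ = h * h'⁻¹ := by group
      rwa [h10] at this
    have h10 : L m ⊓ H = L (max n1 n2) ⊓ H := (h1 m h3).trans (h1 _ (le_max_left _ _)).symm
    rw [h10] at h9
    have := mul_mem h9.1 h8
    have h11 : h * h'⁻¹ * (h' * t ^ a) = h * t ^ a := by group
    rwa [h11] at this

end

section
variable {O : Type} [CommRing O] [IsDomain O] [IsPrincipalIdealRing O]
  {Γ : Type} [Group Γ] {R : Type} [Ring R] [Algebra O R] (ρ : Γ →* R)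

lemma AH_conj2 {H : Subgroup Γ} {t : Γ} (hc : ∀ h ∈ H, t * h * t⁻¹ ∈ H) (r : R)
    (hr : r ∈ AH ρ O H) : ∃ s ∈ AH ρ O H, ρ t * r = s * ρ t := by
  induction hr using Algebra.adjoin_induction with
  | mem x hx =>
    obtain ⟨h, hh, rfl⟩ := hx
    refine ⟨ρ (t * h * t⁻¹), mem_AH ρ (hc h hh), ?_⟩
    rw [← map_mul, ← map_mul]
    congr 1
    group
  | algebraMap o =>
    exact ⟨algebraMap O R o, Subalgebra.algebraMap_mem _ o, (Algebra.commutes o _).symm⟩
  | add x y _ _ hx hy =>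
    obtain ⟨s, hs, h1⟩ := hx
    obtain ⟨s', hs', h2⟩ := hy
    exact ⟨s + s', add_mem hs hs', by rw [mul_add, add_mul, h1, h2]⟩
  | mul x y _ _ hx hy =>
    obtain ⟨s, hs, h1⟩ := hx
    obtain ⟨s', hs', h2⟩ := hy
    exact ⟨s * s', mul_mem hs hs', by rw [← mul_assoc, h1, mul_assoc, h2, mul_assoc]⟩

lemma AH_conj2' {H : Subgroup Γ} {t : Γ} (hc : ∀ h ∈ H, t⁻¹ * h * t ∈ H) (r : R)
    (hr : r ∈ AH ρ O H) : ∃ s ∈ AH ρ O H, r * ρ t = ρ t * s := by
  obtain ⟨s, hs, h1⟩ := AH_conj2 ρ (t := t⁻¹)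
    (fun h hh => by rw [inv_inv]; exact hc h hh) r hr
  refine ⟨s, hs, ?_⟩
  have h2 : ρ t * (ρ t⁻¹ * r) = r := by
    rw [← mul_assoc, ← map_mul, mul_inv_cancel, map_one, one_mul]
  rw [h1, ← mul_assoc] at h2
  rw [← h2, mul_assoc, ← map_mul, inv_mul_cancel, map_one, mul_one]

lemma ext_AH2 {H : Subgroup Γ} {t : Γ} (hc1 : ∀ h ∈ H, t * h * t⁻¹ ∈ H)
    (hc2 : ∀ h ∈ H, t⁻¹ * h * t ∈ H) :
    ∃ v : (AH ρ O (H ⊔ Subgroup.zpowers t))ˣ,
      Ext (Subalgebra.inclusion (AH_mono ρ (O := O)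
        (le_sup_left : H ≤ H ⊔ Subgroup.zpowers t))) v := by
  have hmem : ∀ n : ℤ, t ^ n ∈ H ⊔ Subgroup.zpowers t := fun n =>
    Subgroup.mem_sup_right ⟨n, rfl⟩
  have hmemt : t ∈ H ⊔ Subgroup.zpowers t := Subgroup.mem_sup_right (Subgroup.mem_zpowers t)
  let v : (AH ρ O (H ⊔ Subgroup.zpowers t))ˣ :=
    { val := ⟨ρ t, mem_AH ρ hmemt⟩
      inv := ⟨ρ t⁻¹, mem_AH ρ (inv_mem hmemt)⟩
      val_inv := Subtype.ext (by
        show ρ t * ρ t⁻¹ = 1
        rw [← map_mul, mul_inv_cancel, map_one])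
      inv_val := Subtype.ext (by
        show ρ t⁻¹ * ρ t = 1
        rw [← map_mul, inv_mul_cancel, map_one]) }
  refine ⟨v, ?_, ?_, ?_⟩
  · rintro ⟨r, hr⟩
    obtain ⟨s, hs, h1⟩ := AH_conj2 ρ hc1 r hr
    exact ⟨⟨s, hs⟩, Subtype.ext h1⟩
  · rintro ⟨r, hr⟩
    obtain ⟨s, hs, h1⟩ := AH_conj2' ρ hc2 r hr
    exact ⟨⟨s, hs⟩, Subtype.ext h1⟩
  · rintro ⟨x, hx⟩
    have hx' : x ∈ Algebra.adjoin O (ρ '' ((H ⊔ Subgroup.zpowers t : Subgroup Γ) : Set Γ)) := hx
    let W := Algebra.adjoin O (Set.range (Subalgebra.inclusion (AH_mono ρ (O := O)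
        (le_sup_left : H ≤ H ⊔ Subgroup.zpowers t))) ∪ {(v : AH ρ O (H ⊔ Subgroup.zpowers t)),
          ((v⁻¹ : (AH ρ O (H ⊔ Subgroup.zpowers t))ˣ) : AH ρ O (H ⊔ Subgroup.zpowers t))})
    have hvW : (v : AH ρ O (H ⊔ Subgroup.zpowers t)) ∈ W :=
      Algebra.subset_adjoin (Or.inr (Or.inl rfl))
    have hvW' : ((v⁻¹ : (AH ρ O (H ⊔ Subgroup.zpowers t))ˣ) :
        AH ρ O (H ⊔ Subgroup.zpowers t)) ∈ W :=
      Algebra.subset_adjoin (Or.inr (Or.inr rfl))
    have hzp : ∀ n : ℤ, (⟨ρ (t ^ n), mem_AH ρ (hmem n)⟩ : AH ρ O (H ⊔ Subgroup.zpowers t)) ∈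
        W := by
      intro n
      rcases n with n | n
      · have h1 := pow_mem hvW n
        have h2 : (⟨ρ (t ^ (Int.ofNat n)), mem_AH ρ (hmem _)⟩ :
            AH ρ O (H ⊔ Subgroup.zpowers t)) = (v : AH ρ O (H ⊔ Subgroup.zpowers t)) ^ n := by
          apply Subtype.ext
          show ρ (t ^ (Int.ofNat n)) = (ρ t) ^ n
          rw [← map_pow, Int.ofNat_eq_natCast, zpow_natCast]
        rw [h2]
        exact h1
      · have h1 := pow_mem hvW' (n + 1)
        have h2 : (⟨ρ (t ^ (Int.negSucc n)), mem_AH ρ (hmem _)⟩ :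
            AH ρ O (H ⊔ Subgroup.zpowers t)) =
            ((v⁻¹ : (AH ρ O (H ⊔ Subgroup.zpowers t))ˣ) :
              AH ρ O (H ⊔ Subgroup.zpowers t)) ^ (n + 1) := by
          apply Subtype.ext
          show ρ (t ^ (Int.negSucc n)) = (ρ t⁻¹) ^ (n + 1)
          rw [← map_pow, zpow_negSucc, inv_pow]
        rw [h2]
        exact h1
    show (⟨x, hx⟩ : AH ρ O (H ⊔ Subgroup.zpowers t)) ∈ W
    induction hx' using Algebra.adjoin_induction with
    | mem x hx' =>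
      obtain ⟨g, hg, rfl⟩ := hx'
      obtain ⟨h, hh, n, rfl⟩ := (mem_sup_zp hc1 hc2).1 hg
      have h1 : (⟨ρ h, mem_AH ρ (Subgroup.mem_sup_left hh)⟩ :
          AH ρ O (H ⊔ Subgroup.zpowers t)) ∈ W :=
        Algebra.subset_adjoin (Or.inl ⟨⟨ρ h, mem_AH ρ hh⟩, rfl⟩)
      have h2 := mul_mem h1 (hzp n)
      have h3 : (⟨ρ (h * t ^ n), hx⟩ : AH ρ O (H ⊔ Subgroup.zpowers t)) =
          ⟨ρ h, mem_AH ρ (Subgroup.mem_sup_left hh)⟩ * ⟨ρ (t ^ n), mem_AH ρ (hmem n)⟩ :=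
        Subtype.ext (map_mul ρ h (t ^ n))
      rw [h3]
      exact h2
    | algebraMap o => exact Subalgebra.algebraMap_mem W o
    | add x y hx1 hy1 ih1 ih2 => exact add_mem (ih1 hx1) (ih2 hy1)
    | mul x y hx1 hy1 ih1 ih2 => exact mul_mem (ih1 hx1) (ih2 hy1)

theorem noeth_AH {H : Subgroup Γ} (hH : PSer H) : IsNoetherianRing (AH ρ O H) := by
  induction hH with
  | bot => exact (nice_AH ρ (O := O) CSer.bot).1
  | step H t hH h1 h2 ih =>
    obtain ⟨v, hv⟩ := ext_AH2 ρ (O := O) h1 h2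
    exact hv.noeth

/-- P. Hall: a ring generated by a polycyclic group is Noetherian -/
theorem noeth_of_pser (hΓ : PSer (⊤ : Subgroup Γ))
    (hgen : ∀ x : R, x ∈ Algebra.adjoin O (Set.range ρ)) : IsNoetherianRing R := by
  have h1 := noeth_AH ρ (O := O) hΓ
  have hmem : ∀ x : R, x ∈ AH ρ O (⊤ : Subgroup Γ) := by
    intro x
    have : AH ρ O (⊤ : Subgroup Γ) = Algebra.adjoin O (Set.range ρ) := by
      unfold AH
      rw [Subgroup.coe_top, Set.image_univ]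
    rw [this]
    exact hgen x
  have hv : Ext (AH ρ O (⊤ : Subgroup Γ)).val (1 : Rˣ) := by
    refine ⟨fun r => ⟨r, by simp⟩, fun r => ⟨r, by simp⟩, fun x => ?_⟩
    exact Algebra.subset_adjoin (Or.inl ⟨⟨x, hmem x⟩, rfl⟩)
  exact hv.noeth

end

/-! ### polycyclic groups are finitely presented -/

section
variable {Q G : Type} [Group Q] [Group G] (π : G →* Q)

lemma step_fg {H : Subgroup Q} {t : Q} (hc1 : ∀ h ∈ H, t * h * t⁻¹ ∈ H)
    (hc2 : ∀ h ∈ H, t⁻¹ * h * t ∈ H) (hπ : Function.Surjective π)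
    (ih : ∃ (K : Subgroup G) (T : Set G), T.Finite ∧ K.FG ∧ T ⊆ π.ker ∧ K.map π = H ∧
      ∀ x ∈ K, π x = 1 → x ∈ Subgroup.normalClosure T) :
    ∃ (K : Subgroup G) (T : Set G), T.Finite ∧ K.FG ∧ T ⊆ π.ker ∧
      K.map π = H ⊔ Subgroup.zpowers t ∧
      ∀ x ∈ K, π x = 1 → x ∈ Subgroup.normalClosure T := by
  classical
  obtain ⟨K, T, hT, hK, hTk, hKH, hx⟩ := ih
  obtain ⟨g, hg⟩ := hπ t
  obtain ⟨F, hF⟩ := hK
  have hlift : ∀ q ∈ H, ∃ w ∈ K, π w = q := by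
    intro q hq
    rw [← hKH] at hq
    obtain ⟨w, hw, rfl⟩ := hq
    exact ⟨w, hw, rfl⟩
  have hKH' : ∀ x ∈ K, π x ∈ H := fun x hx => by rw [← hKH]; exact ⟨x, hx, rfl⟩
  have hFK : ∀ f ∈ F, f ∈ K := fun f hf => by rw [← hF]; exact Subgroup.subset_closure hf
  have h1 : ∀ f : G, ∃ w : G, f ∈ K → w ∈ K ∧ π w = π (g * f * g⁻¹) := by
    intro f
    by_cases hf : f ∈ K
    · obtain ⟨w, hw, hw2⟩ := hlift (π (g * f * g⁻¹)) (by
        rw [map_mul, map_mul, map_inv, hg]; exact hc1 _ (hKH' f hf))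
      exact ⟨w, fun _ => ⟨hw, hw2⟩⟩
    · exact ⟨1, fun h => absurd h hf⟩
  have h2 : ∀ f : G, ∃ w : G, f ∈ K → w ∈ K ∧ π w = π (g⁻¹ * f * g) := by
    intro f
    by_cases hf : f ∈ K
    · obtain ⟨w, hw, hw2⟩ := hlift (π (g⁻¹ * f * g)) (by
        rw [map_mul, map_mul, map_inv, hg]; exact hc2 _ (hKH' f hf))
      exact ⟨w, fun _ => ⟨hw, hw2⟩⟩
    · exact ⟨1, fun h => absurd h hf⟩
  choose w1 hw1 using h1
  choose w2 hw2 using h2
  -- the exponents
  let E : AddSubgroup ℤ :=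
    { carrier := {n | t ^ n ∈ H}
      zero_mem' := by
        show t ^ (0 : ℤ) ∈ H
        rw [zpow_zero]; exact one_mem _
      add_mem' := by
        intro a b ha hb
        show t ^ (a + b) ∈ H
        rw [zpow_add]; exact mul_mem ha hb
      neg_mem' := by
        intro a ha
        show t ^ (-a) ∈ H
        rw [zpow_neg]; exact inv_mem ha }
  have hE : ∀ n, n ∈ E ↔ t ^ n ∈ H := fun n => Iff.rfl
  obtain ⟨m, hm⟩ := Int.subgroup_cyclic E
  have hmE : m ∈ E := by rw [hm]; exact AddSubgroup.subset_closure rfl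
  obtain ⟨w3, hw3, hw3'⟩ := hlift (t ^ m) ((hE m).1 hmE)
  refine ⟨K ⊔ Subgroup.zpowers g, T ∪ ((fun f => g * f * g⁻¹ * (w1 f)⁻¹) '' (F : Set G)) ∪
    ((fun f => g⁻¹ * f * g * (w2 f)⁻¹) '' (F : Set G)) ∪ {g ^ m * w3⁻¹}, ?_, ?_, ?_, ?_, ?_⟩
  · exact ((hT.union (F.finite_toSet.image _)).union (F.finite_toSet.image _)).union
      (Set.finite_singleton _)
  · refine ⟨insert g F, ?_⟩
    rw [Finset.coe_insert, Set.insert_eq, Subgroup.closure_union, hF,
      ← Subgroup.zpowers_eq_closure, sup_comm]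
  · rintro x (((hx | ⟨f, hf, rfl⟩) | ⟨f, hf, rfl⟩) | rfl)
    · exact hTk hx
    · show _ ∈ π.ker
      rw [MonoidHom.mem_ker, map_mul, map_inv π (w1 f), (hw1 f (hFK f hf)).2, mul_inv_cancel]
    · show _ ∈ π.ker
      rw [MonoidHom.mem_ker, map_mul, map_inv π (w2 f), (hw2 f (hFK f hf)).2, mul_inv_cancel]
    · show _ ∈ π.ker
      rw [MonoidHom.mem_ker, map_mul, map_inv, hw3', map_zpow, hg, mul_inv_cancel]
  · rw [Subgroup.map_sup, MonoidHom.map_zpowers, hKH, hg]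
  · obtain ⟨U, hU⟩ : ∃ U : Set G, U = T ∪ ((fun f => g * f * g⁻¹ * (w1 f)⁻¹) '' (F : Set G)) ∪
      ((fun f => g⁻¹ * f * g * (w2 f)⁻¹) '' (F : Set G)) ∪ {g ^ m * w3⁻¹} := ⟨_, rfl⟩
    rw [← hU]
    have hTU : Subgroup.normalClosure T ≤ Subgroup.normalClosure U := by
      apply Subgroup.normalClosure_mono
      rw [hU]
      intro x hx
      exact Or.inl (Or.inl (Or.inl hx))
    have hM1 : ∀ f ∈ F, g * f * g⁻¹ ∈ K ⊔ Subgroup.normalClosure U := by
      intro f hf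
      have h3 : g * f * g⁻¹ * (w1 f)⁻¹ ∈ Subgroup.normalClosure U :=
        Subgroup.subset_normalClosure (by rw [hU]; exact Or.inl (Or.inl (Or.inr ⟨f, hf, rfl⟩)))
      have h4 := mul_mem (Subgroup.mem_sup_right (S := K) h3)
        (Subgroup.mem_sup_left (T := Subgroup.normalClosure U) (hw1 f (hFK f hf)).1)
      rwa [inv_mul_cancel_right] at h4
    have hM2 : ∀ f ∈ F, g⁻¹ * f * g ∈ K ⊔ Subgroup.normalClosure U := by
      intro f hf
      have h3 : g⁻¹ * f * g * (w2 f)⁻¹ ∈ Subgroup.normalClosure U :=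
        Subgroup.subset_normalClosure (by rw [hU]; exact Or.inl (Or.inr ⟨f, hf, rfl⟩))
      have h4 := mul_mem (Subgroup.mem_sup_right (S := K) h3)
        (Subgroup.mem_sup_left (T := Subgroup.normalClosure U) (hw2 f (hFK f hf)).1)
      rwa [inv_mul_cancel_right] at h4
    have hM3 : g ^ m ∈ K ⊔ Subgroup.normalClosure U := by
      have h3 : g ^ m * w3⁻¹ ∈ Subgroup.normalClosure U :=
        Subgroup.subset_normalClosure (by rw [hU]; exact Or.inr rfl)
      have h4 := mul_mem (Subgroup.mem_sup_right (S := K) h3)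
        (Subgroup.mem_sup_left (T := Subgroup.normalClosure U) hw3)
      rwa [inv_mul_cancel_right] at h4
    obtain ⟨M, hM⟩ : ∃ M : Subgroup G, M = K ⊔ Subgroup.normalClosure U := ⟨_, rfl⟩
    rw [← hM] at hM1 hM2 hM3
    have hKM : K ≤ M := by rw [hM]; exact le_sup_left
    have hNM : Subgroup.normalClosure U ≤ M := by rw [hM]; exact le_sup_right
    have hnU : (Subgroup.normalClosure U).Normal := inferInstance
    have hc : ∀ y : G, (∀ f ∈ F, y * f * y⁻¹ ∈ M) → ∀ h ∈ M, y * h * y⁻¹ ∈ M := by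
      intro y hy h hh
      have hle : M ≤ M.comap (MulAut.conj y).toMonoidHom := by
        nth_rewrite 1 [hM]
        refine sup_le ?_ ?_
        · rw [← hF, Subgroup.closure_le]
          intro f hf
          exact hy f hf
        · intro z hz
          exact hNM (hnU.conj_mem z hz y)
      exact hle hh
    have hc1' : ∀ h ∈ M, g * h * g⁻¹ ∈ M := hc g hM1
    have hc2' : ∀ h ∈ M, g⁻¹ * h * g ∈ M := by
      intro h hh
      have := hc g⁻¹ (fun f hf => by rw [inv_inv]; exact hM2 f hf) h hh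
      rwa [inv_inv] at this
    intro x hxK hx1
    have h5 : x ∈ M ⊔ Subgroup.zpowers g := (sup_le_sup_right hKM _) hxK
    obtain ⟨y, hy, n, rfl⟩ := (mem_sup_zp hc1' hc2').1 h5
    have hyM := hy
    rw [hM] at hy
    obtain ⟨h, hh, ν, hν, rfl⟩ := Subgroup.mem_sup_of_normal_right.1 hy
    have hker : Subgroup.normalClosure U ≤ π.ker := by
      apply Subgroup.normalClosure_le_normal
      rw [hU]
      rintro x (((hx | ⟨f, hf, rfl⟩) | ⟨f, hf, rfl⟩) | rfl)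
      · exact hTk hx
      · show _ ∈ π.ker
        rw [MonoidHom.mem_ker, map_mul, map_inv π (w1 f), (hw1 f (hFK f hf)).2, mul_inv_cancel]
      · show _ ∈ π.ker
        rw [MonoidHom.mem_ker, map_mul, map_inv π (w2 f), (hw2 f (hFK f hf)).2, mul_inv_cancel]
      · show _ ∈ π.ker
        rw [MonoidHom.mem_ker, map_mul, map_inv, hw3', map_zpow, hg, mul_inv_cancel]
    have hn : n ∈ E := by
      rw [hE]
      rw [map_mul, map_mul, MonoidHom.mem_ker.1 (hker hν), mul_one, map_zpow, hg] at hx1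
      have h6 : t ^ n = (π h)⁻¹ := by
        rw [eq_inv_iff_mul_eq_one]
        have h7 : t ^ n = (π h)⁻¹ := (inv_eq_of_mul_eq_one_right hx1).symm
        rw [h7, inv_mul_cancel]
      rw [h6]
      exact inv_mem (hKH' h hh)
    have hgn : g ^ n ∈ M := by
      rw [hm, AddSubgroup.mem_closure_singleton] at hn
      obtain ⟨j, hj⟩ := hn
      rw [← hj, smul_eq_mul, mul_comm, zpow_mul]
      exact zpow_mem hM3 j
    have hxM := mul_mem hyM hgn
    rw [hM] at hxM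
    obtain ⟨h', hh', ν', hν', hxe⟩ := Subgroup.mem_sup_of_normal_right.1 hxM
    rw [← hxe] at hx1 ⊢
    rw [map_mul, MonoidHom.mem_ker.1 (hker hν'), mul_one] at hx1
    exact mul_mem (hTU (hx h' hh' hx1)) hν'

/-- the kernel of a homomorphism of a finitely generated group onto a polycyclic group is the
normal closure of a finite set -/
theorem ker_fg (hQ : PSer (⊤ : Subgroup Q)) (hG : Group.FG G) (hπ : Function.Surjective π) :
    ∃ T : Set G, T.Finite ∧ T ⊆ π.ker ∧ π.ker ≤ Subgroup.normalClosure T := by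
  have key : ∀ H : Subgroup Q, PSer H →
      ∃ (K : Subgroup G) (T : Set G), T.Finite ∧ K.FG ∧ T ⊆ π.ker ∧ K.map π = H ∧
      ∀ x ∈ K, π x = 1 → x ∈ Subgroup.normalClosure T := by
    intro H hH
    induction hH with
    | bot =>
      refine ⟨⊥, ∅, Set.finite_empty, ⟨∅, by simp⟩, Set.empty_subset _,
        Subgroup.map_bot _, ?_⟩
      intro x hx _
      rw [Subgroup.mem_bot.1 hx]
      exact one_mem _
    | step H t _ h1 h2 ih => exact step_fg π h1 h2 hπ ih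
  obtain ⟨K, T, hT, -, hTk, hKm, hx⟩ := key ⊤ hQ
  obtain ⟨s, hs⟩ := Group.fg_def.1 hG
  have h1 : ∀ g : G, ∃ w ∈ K, π w = π g := by
    intro g
    have : π g ∈ K.map π := by rw [hKm]; trivial
    obtain ⟨w, hw, h2⟩ := this
    exact ⟨w, hw, h2⟩
  choose w hw hw2 using h1
  refine ⟨T ∪ (fun g => g * (w g)⁻¹) '' (s : Set G), hT.union (s.finite_toSet.image _), ?_, ?_⟩
  · rintro x (hx | ⟨g, -, rfl⟩)
    · exact hTk hx
    · show _ ∈ π.ker
      rw [MonoidHom.mem_ker, map_mul, map_inv, hw2, mul_inv_cancel]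
  · obtain ⟨U, hU⟩ : ∃ U : Set G, U = T ∪ (fun g => g * (w g)⁻¹) '' (s : Set G) := ⟨_, rfl⟩
    rw [← hU]
    have hTU : Subgroup.normalClosure T ≤ Subgroup.normalClosure U := by
      apply Subgroup.normalClosure_mono
      rw [hU]
      exact Set.subset_union_left
    have hker : Subgroup.normalClosure U ≤ π.ker := by
      apply Subgroup.normalClosure_le_normal
      rw [hU]
      rintro x (hx | ⟨g, -, rfl⟩)
      · exact hTk hx
      · show _ ∈ π.ker
        rw [MonoidHom.mem_ker, map_mul, map_inv, hw2, mul_inv_cancel]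
    have htop : (⊤ : Subgroup G) ≤ K ⊔ Subgroup.normalClosure U := by
      rw [← hs, Subgroup.closure_le]
      intro g hg
      have h3 : g * (w g)⁻¹ ∈ Subgroup.normalClosure U :=
        Subgroup.subset_normalClosure (by rw [hU]; exact Or.inr ⟨g, hg, rfl⟩)
      have h4 := mul_mem (Subgroup.mem_sup_right (S := K) h3)
        (Subgroup.mem_sup_left (T := Subgroup.normalClosure U) (hw g))
      rwa [inv_mul_cancel_right] at h4
    intro x hxk
    obtain ⟨h, hh, ν, hν, rfl⟩ := Subgroup.mem_sup_of_normal_right.1 (htop (Subgroup.mem_top x))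
    rw [MonoidHom.mem_ker, map_mul, MonoidHom.mem_ker.1 (hker hν), mul_one] at hxk
    exact mul_mem (hTU (hx h hh hxk)) hν

end

end Pool.Agent.SmallVar.Prod
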