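import Pool.Agent.Lib.MP_1c3690_al.Prod.Hall

set_option autoImplicit false
set_option linter.unusedSectionVars false

namespace Pool.Agent.SmallVar.Prod

open Cardinal

/-- the group belongs to the product of the varieties with laws `SU` and `SW` -/
def InProd (SU SW : Set (FreeGroup ℕ)) (G : Type) [Group G] : Prop :=
  ∃ (N : Subgroup G) (_ : N.Normal), InVar SU N ∧ InVar SW (G ⧸ N)

/-- the product variety is small -/
def SmallProd (SU SW : Set (FreeGroup ℕ)) : Prop :=
  ¬ ∃ (G : Set ℕ → Type) (_ : ∀ s, Group (G s)),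
    (∀ s, Group.FG (G s)) ∧ (∀ s, InProd SU SW (G s)) ∧
    (∀ s t, Nonempty (G s ≃* G t) → s = t)

lemma InProd.of_surjective {SU SW : Set (FreeGroup ℕ)} {G H : Type} [Group G] [Group H]
    (h : InProd SU SW G) (φ : G →* H) (hφ : Function.Surjective φ) : InProd SU SW H := by
  obtain ⟨N, hN, h1, h2⟩ := h
  have hn : (N.map φ).Normal := hN.map φ hφ
  refine ⟨N.map φ, hn, h1.of_surjective (φ.subgroupMap N) (φ.subgroupMap_surjective N), ?_⟩
  refine h2.of_surjective (QuotientGroup.map N (N.map φ) φ (Subgroup.le_comap_map φ N)) ?_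
  intro y
  obtain ⟨z, rfl⟩ := QuotientGroup.mk_surjective y
  obtain ⟨x, rfl⟩ := hφ z
  exact ⟨(x : G ⧸ N), rfl⟩

/-- a finitely generated group with continuum many normal subgroups has continuum many quotients
up to isomorphism -/
theorem exists_family {G : Type} [Group G] (hG : Group.FG G) (f : Set ℕ → Subgroup G)
    [hn : ∀ s, (f s).Normal] (hf : Function.Injective f) :
    ∃ j : Set ℕ → Set ℕ, ∀ s t, Nonempty ((G ⧸ f (j s)) ≃* (G ⧸ f (j t))) → s = t := by
  let r : Setoid (Set ℕ) :=
    { r := fun s t => Nonempty ((G ⧸ f s) ≃* (G ⧸ f t))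
      iseqv :=
        { refl := fun s => ⟨MulEquiv.refl _⟩
          symm := fun ⟨e⟩ => ⟨e.symm⟩
          trans := fun ⟨e⟩ ⟨e'⟩ => ⟨e.trans e'⟩ } }
  have hcl : ∀ x : Quotient r, Countable {t : Set ℕ // (⟦t⟧ : Quotient r) = x} := by
    intro x
    obtain ⟨s, rfl⟩ := Quotient.exists_rep x
    have hiso : ∀ t : {t : Set ℕ // (⟦t⟧ : Quotient r) = ⟦s⟧},
        Nonempty ((G ⧸ f t.1) ≃* (G ⧸ f s)) := fun t => Quotient.exact t.2
    choose e he using fun t => (⟨(hiso t).some, trivial⟩ :
      ∃ _ : (G ⧸ f t.1) ≃* (G ⧸ f s), True)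
    have hcG : Countable G := countable_of_fg hG
    have hc : Countable (G →* (G ⧸ f s)) :=
      countable_hom hG (Function.Surjective.countable (QuotientGroup.mk'_surjective (f s)))
    refine Function.Injective.countable
      (f := fun t => ((e t).toMonoidHom.comp (QuotientGroup.mk' (f t.1)))) ?_
    intro t u htu
    have hk : ∀ t, ((e t).toMonoidHom.comp (QuotientGroup.mk' (f t.1))).ker = f t.1 := by
      intro t
      ext x
      rw [MonoidHom.mem_ker]
      show e t (x : G ⧸ f t.1) = 1 ↔ _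
      rw [EmbeddingLike.map_eq_one_iff, QuotientGroup.eq_one_iff]
    apply Subtype.ext
    apply hf
    rw [← hk t, ← hk u]
    exact congrArg MonoidHom.ker htu
  have hcard : #(Set ℕ) ≤ #(Quotient r) := by
    by_contra hlt
    push Not at hlt
    have h1 : #(Set ℕ) = #(Σ x : Quotient r, {t : Set ℕ // (⟦t⟧ : Quotient r) = x}) :=
      Cardinal.mk_congr (Equiv.sigmaFiberEquiv _).symm
    have h2 : #(Σ x : Quotient r, {t : Set ℕ // (⟦t⟧ : Quotient r) = x}) ≤
        #(Quotient r) * ℵ₀ := by
      rw [Cardinal.mk_sigma]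
      calc _ ≤ Cardinal.sum (fun _ : Quotient r => ℵ₀) :=
            Cardinal.sum_le_sum _ _ fun x => Cardinal.mk_le_aleph0_iff.2 (hcl x)
        _ = _ := by rw [Cardinal.sum_const']
    have h3 : ℵ₀ < #(Set ℕ) := by
      rw [Cardinal.mk_set]
      exact Cardinal.mk_nat ▸ Cardinal.cantor _
    have h4 : #(Quotient r) * ℵ₀ < #(Set ℕ) := Cardinal.mul_lt_of_lt h3.le hlt h3
    rw [h1] at h4
    exact absurd h2 (not_le.2 (h1 ▸ h4))
  obtain ⟨j⟩ := hcard
  refine ⟨fun s => (j s).out, fun s t hst => ?_⟩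
  apply j.injective
  have h1 : (⟦(j s).out⟧ : Quotient r) = ⟦(j t).out⟧ := Quotient.sound hst
  rwa [Quotient.out_eq, Quotient.out_eq] at h1

theorem SmallProd.few_normal {SU SW : Set (FreeGroup ℕ)} (hS : SmallProd SU SW) {G : Type}
    [Group G] (hG : Group.FG G) (hV : InProd SU SW G) (f : Set ℕ → Subgroup G)
    (hn : ∀ s, (f s).Normal) (hf : Function.Injective f) : False := by
  obtain ⟨j, hj⟩ := exists_family hG f hf
  apply hS
  exact ⟨fun s => G ⧸ f (j s), fun s => inferInstance, fun s => inferInstance,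
    fun s => hV.of_surjective (QuotientGroup.mk' _) (QuotientGroup.mk'_surjective _), hj⟩

lemma InVar.pi {S : Set (FreeGroup ℕ)} {ι : Type} {H : ι → Type} [∀ i, Group (H i)]
    (h : ∀ i, InVar S (H i)) : InVar S (∀ i, H i) := by
  intro w hw f
  funext i
  show Pi.evalMonoidHom H i (FreeGroup.lift f w) = 1
  rw [map_lift]
  exact h i w hw _

/-! ### the first factor is abelian -/

section
variable {H : Type} [Group H]

/-- the base group -/
abbrev BB (H : Type) := ℕ → ℤ → H

/-- the shift -/
def sh (H : Type) [Group H] (k : ℤ) : BB H ≃* BB H where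
  toFun b := fun n i => b n (i - k)
  invFun b := fun n i => b n (i + k)
  left_inv b := by funext n i; show b n (i + k - k) = b n i; rw [add_sub_cancel_right]
  right_inv b := by funext n i; show b n (i - k + k) = b n i; rw [sub_add_cancel]
  map_mul' a b := rfl

/-- the action of the integers -/
def act (H : Type) [Group H] : Multiplicative ℤ →* MulAut (BB H) where
  toFun k := sh H k.toAdd
  map_one' := by
    ext b n i
    show b n (i - 0) = b n i
    rw [sub_zero]
  map_mul' k l := by
    ext b n i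
    show b n (i - (k.toAdd + l.toAdd)) = b n (i - k.toAdd - l.toAdd)
    rw [sub_sub]

/-- the unrestricted group -/
abbrev GG (H : Type) [Group H] := BB H ⋊[act H] Multiplicative ℤ

lemma conj_inl (b : BB H) (k : ℤ) :
    (SemidirectProduct.inr (Multiplicative.ofAdd k) : GG H) * SemidirectProduct.inl b *
      (SemidirectProduct.inr (Multiplicative.ofAdd k))⁻¹ =
      SemidirectProduct.inl (fun n i => b n (i - k)) := by
  rw [← map_inv]
  exact (SemidirectProduct.inl_aut (φ := act H) (Multiplicative.ofAdd k) b).symm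

/-- elements which are trivial in the block `n` -/
def ZZ (H : Type) [Group H] (n : ℕ) : Subgroup (GG H) where
  carrier := {g | g.right = 1 ∧ g.left n = 1}
  one_mem' := ⟨rfl, rfl⟩
  mul_mem' := by
    rintro g h ⟨h1, h2⟩ ⟨h3, h4⟩
    refine ⟨?_, ?_⟩
    · show g.right * h.right = 1
      rw [h1, h3, one_mul]
    · show g.left n * (act H g.right h.left) n = 1
      rw [h1, map_one, h2, one_mul]
      exact h4
  inv_mem' := by
    rintro g ⟨h1, h2⟩
    refine ⟨?_, ?_⟩
    · show g.right⁻¹ = 1
      rw [h1, inv_one]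
    · show (act H g.right⁻¹ g.left⁻¹) n = 1
      rw [h1, inv_one, map_one]
      show (g.left n)⁻¹ = 1
      rw [h2, inv_one]

lemma ZZ_normal (n : ℕ) : (ZZ H n).Normal := by
  refine ⟨fun g hg x => ?_⟩
  obtain ⟨u, k, rfl⟩ : ∃ (u : BB H) (k : Multiplicative ℤ),
      x = SemidirectProduct.inl u * SemidirectProduct.inr k :=
    ⟨x.left, x.right, (SemidirectProduct.inl_left_mul_inr_right x).symm⟩
  obtain ⟨v, rfl⟩ : ∃ v : BB H, g = SemidirectProduct.inl v :=
    ⟨g.left, SemidirectProduct.ext rfl hg.1⟩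
  have hv : v n = 1 := hg.2
  have e3 : (SemidirectProduct.inl u * SemidirectProduct.inr k) * SemidirectProduct.inl v *
      (SemidirectProduct.inl u * SemidirectProduct.inr k : GG H)⁻¹ =
      SemidirectProduct.inl (u * (act H k v) * u⁻¹) := by
    rw [mul_inv_rev, map_mul, map_mul, SemidirectProduct.inl_aut, map_inv, map_inv]
    simp only [mul_assoc]
  rw [e3]
  refine ⟨rfl, ?_⟩
  show u n * (act H k v) n * (u n)⁻¹ = 1
  have e4 : (act H k v) n = 1 := by
    funext i
    show v n (i - k.toAdd) = 1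
    rw [hv]
    rfl
  rw [e4, mul_one, mul_inv_cancel]

/-- the generating function -/
def cc (a b : H) : BB H := fun n i => if i = 0 then a else if i = (n : ℤ) + 1 then b else 1

/-- the generators -/
def xx (a b : H) : GG H := SemidirectProduct.inl (cc a b)

/-- the generators -/
def tt (H : Type) [Group H] : GG H := SemidirectProduct.inr (Multiplicative.ofAdd 1)

/-- the two-generator group -/
def G2 (a b : H) : Subgroup (GG H) := Subgroup.closure {xx a b, tt H}

open scoped commutatorElement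

/-- the commutators -/
def yy (a b : H) (m : ℕ) : GG H := ⁅xx a b, (tt H) ^ (m + 1) * xx a b * ((tt H) ^ (m + 1))⁻¹⁆

lemma yy_mem (a b : H) (m : ℕ) : yy a b m ∈ G2 a b := by
  have h1 : xx a b ∈ G2 a b := Subgroup.subset_closure (Or.inl rfl)
  have h2 : tt H ∈ G2 a b := Subgroup.subset_closure (Or.inr rfl)
  unfold yy
  rw [commutatorElement_def]
  have h3 := mul_mem (mul_mem (pow_mem h2 (m + 1)) h1) (inv_mem (pow_mem h2 (m + 1)))
  exact mul_mem (mul_mem (mul_mem h1 h3) (inv_mem h1)) (inv_mem h3)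

lemma yy_eq (a b : H) (m : ℕ) : yy a b m = SemidirectProduct.inl
    (fun n i => ⁅cc a b n i, cc a b n (i - ((m : ℤ) + 1))⁆) := by
  have h1 : (tt H) ^ (m + 1) = SemidirectProduct.inr (Multiplicative.ofAdd ((m : ℤ) + 1)) := by
    unfold tt
    rw [← map_pow, ← ofAdd_nsmul]
    congr 2
    rw [nsmul_eq_mul, mul_one]
    push_cast
    rfl
  unfold yy
  rw [h1]
  unfold xx
  rw [conj_inl, ← map_commutatorElement]
  rfl

lemma yy_mem_ZZ (a b : H) {m n : ℕ} (hmn : m ≠ n) : yy a b m ∈ ZZ H n := by
  rw [yy_eq]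
  refine ⟨rfl, ?_⟩
  funext i
  show ⁅cc a b n i, cc a b n (i - ((m : ℤ) + 1))⁆ = 1
  have hm : (0 : ℤ) ≤ m := Int.natCast_nonneg m
  have hn : (0 : ℤ) ≤ n := Int.natCast_nonneg n
  have hne : (m : ℤ) ≠ n := by exact_mod_cast hmn
  by_cases h0 : i = 0
  · have h2 : cc a b n (i - ((m : ℤ) + 1)) = 1 := by
      unfold cc
      rw [if_neg (by omega), if_neg (by omega)]
    rw [h2, commutatorElement_one_right]
  · by_cases h1 : i = (n : ℤ) + 1
    · have h2 : cc a b n (i - ((m : ℤ) + 1)) = 1 := by
        unfold cc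
        rw [if_neg (by omega), if_neg (by omega)]
      rw [h2, commutatorElement_one_right]
    · have h2 : cc a b n i = 1 := by
        unfold cc
        rw [if_neg h0, if_neg h1]
      rw [h2, commutatorElement_one_left]

lemma yy_not_mem_ZZ (a b : H) (hab : a * b ≠ b * a) (n : ℕ) : yy a b n ∉ ZZ H n := by
  rw [yy_eq]
  rintro ⟨-, h⟩
  have h1 := congrFun h ((n : ℤ) + 1)
  have h2 : ⁅cc a b n ((n : ℤ) + 1), cc a b n ((n : ℤ) + 1 - ((n : ℤ) + 1))⁆ = 1 := h1
  have hn : (0 : ℤ) ≤ n := Int.natCast_nonneg n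
  have h3 : cc a b n ((n : ℤ) + 1) = b := by
    unfold cc
    rw [if_neg (by omega), if_pos rfl]
  have h4 : cc a b n ((n : ℤ) + 1 - ((n : ℤ) + 1)) = a := by
    unfold cc
    rw [if_pos (by omega)]
  rw [h3, h4, commutatorElement_eq_one_iff_mul_comm] at h2
  exact hab h2.symm

/-- the normal subgroups -/
def KS (a b : H) (s : Set ℕ) : Subgroup (G2 a b) :=
  Subgroup.normalClosure {g | ∃ m ∈ s, (g : GG H) = yy a b m}

lemma mem_KS_iff (a b : H) (hab : a * b ≠ b * a) (s : Set ℕ) (n : ℕ) :
    (⟨yy a b n, yy_mem a b n⟩ : G2 a b) ∈ KS a b s ↔ n ∈ s := by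
  constructor
  · intro h
    by_contra hn
    have hz := ZZ_normal (H := H) n
    have h1 : KS a b s ≤ (ZZ H n).subgroupOf (G2 a b) := by
      apply Subgroup.normalClosure_le_normal
      rintro g ⟨m, hm, hg⟩
      show (g : GG H) ∈ ZZ H n
      rw [hg]
      apply yy_mem_ZZ
      rintro rfl
      exact hn hm
    exact yy_not_mem_ZZ a b hab n (h1 h)
  · intro h
    exact Subgroup.subset_normalClosure ⟨n, h, rfl⟩

lemma G2_fg (a b : H) : Group.FG (G2 a b) := by
  rw [Group.fg_iff_subgroup_fg, Subgroup.fg_iff]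
  exact ⟨_, rfl, (Set.finite_singleton _).insert _⟩

lemma G2_inProd (a b : H) {SU SW : Set (FreeGroup ℕ)} (hU : InVar SU H)
    (hW : InVar SW (Multiplicative ℤ)) : InProd SU SW (G2 a b) := by
  let π : G2 a b →* Multiplicative ℤ := SemidirectProduct.rightHom.comp (G2 a b).subtype
  refine ⟨π.ker, inferInstance, ?_, ?_⟩
  · let ψ : π.ker →* BB H :=
      { toFun := fun g => (g : G2 a b).1.left
        map_one' := rfl
        map_mul' := by
          rintro ⟨⟨g, hg⟩, hg1⟩ ⟨⟨h, hh⟩, hh1⟩
          have h1 : g.right = 1 := hg1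
          show g.left * (act H g.right h.left) = g.left * h.left
          rw [h1, map_one]
          rfl }
    refine (InVar.pi fun _ => InVar.pi fun _ => hU : InVar SU (BB H)).of_injective ψ ?_
    rintro ⟨⟨g, hg⟩, hg1⟩ ⟨⟨h, hh⟩, hh1⟩ hgh
    have h1 : g.right = 1 := hg1
    have h2 : h.right = 1 := hh1
    apply Subtype.ext
    apply Subtype.ext
    apply SemidirectProduct.ext
    · exact hgh
    · show g.right = h.right
      rw [h1, h2]
  · exact hW.of_injective (QuotientGroup.kerLift π) (QuotientGroup.kerLift_injective π)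

end

/-- the first factor of a small product variety whose second factor contains the infinite cyclic
group is abelian -/
theorem SmallProd.comm {SU SW : Set (FreeGroup ℕ)} (hS : SmallProd SU SW)
    (hW : InVar SW (Multiplicative ℤ)) {H : Type} [Group H] (hU : InVar SU H) (a b : H) :
    a * b = b * a := by
  by_contra hab
  refine hS.few_normal (G2_fg a b) (G2_inProd a b hU hW) (KS a b)
    (fun s => Subgroup.normalClosure_normal) ?_
  intro s t hst
  ext n
  rw [← mem_KS_iff a b hab s n, ← mem_KS_iff a b hab t n, hst]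

end Pool.Agent.SmallVar.Prod
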