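import Pool.Agent.Lib.MP_1c3690_al.Prod.Small

set_option autoImplicit false
set_option linter.unusedSectionVars false

namespace Pool.Agent.SmallVar.Prod

section
variable {C : Type} [CommGroup C] {Γ : Type} [Group Γ]

/-- the base group of the restricted wreath product -/
abbrev DD (C Γ : Type) [CommGroup C] := Γ →₀ Additive C

/-- the translation -/
noncomputable def tr (C : Type) [CommGroup C] {Γ : Type} [Group Γ] (g : Γ) : DD C Γ ≃+ DD C Γ :=
  Finsupp.domCongr (Equiv.mulLeft g)

lemma tr_apply (g : Γ) (f : DD C Γ) (x : Γ) : tr C g f x = f (g⁻¹ * x) := by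
  show Finsupp.domCongr (Equiv.mulLeft g) f x = _
  rw [Finsupp.domCongr_apply, Finsupp.equivMapDomain_apply]
  rfl

lemma tr_single (g x : Γ) (c : Additive C) :
    tr C g (Finsupp.single x c) = Finsupp.single (g * x) c := by
  show Finsupp.domCongr (Equiv.mulLeft g) _ = _
  rw [Finsupp.domCongr_apply, Finsupp.equivMapDomain_single]
  rfl

/-- the action on the base group -/
noncomputable def wact (C Γ : Type) [CommGroup C] [Group Γ] :
    Γ →* MulAut (Multiplicative (DD C Γ)) where
  toFun g := AddEquiv.toMultiplicative (tr C g)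
  map_one' := by
    apply MulEquiv.ext
    intro f
    apply Multiplicative.toAdd.injective
    show tr C 1 (Multiplicative.toAdd f) = Multiplicative.toAdd f
    apply Finsupp.ext
    intro x
    rw [tr_apply, inv_one, one_mul]
  map_mul' g h := by
    apply MulEquiv.ext
    intro f
    apply Multiplicative.toAdd.injective
    show tr C (g * h) (Multiplicative.toAdd f) = tr C g (tr C h (Multiplicative.toAdd f))
    apply Finsupp.ext
    intro x
    rw [tr_apply, tr_apply, tr_apply, mul_inv_rev, mul_assoc]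

/-- the restricted wreath product -/
abbrev WW (C Γ : Type) [CommGroup C] [Group Γ] := Multiplicative (DD C Γ) ⋊[wact C Γ] Γ

/-- the kernel of the map to the functions on the cosets -/
noncomputable def II (C : Type) [CommGroup C] (Δ : Subgroup Γ) : AddSubgroup (DD C Γ) :=
  (Finsupp.mapDomain.addMonoidHom (M := Additive C) (QuotientGroup.mk : Γ → Γ ⧸ Δ)).ker

lemma mem_II {Δ : Subgroup Γ} {f : DD C Γ} : f ∈ II C Δ ↔
    Finsupp.mapDomain (QuotientGroup.mk : Γ → Γ ⧸ Δ) f = 0 := Iff.rfl

lemma tr_mem_II {Δ : Subgroup Γ} {f : DD C Γ} (hf : f ∈ II C Δ) (g : Γ) : tr C g f ∈ II C Δ := by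
  rw [mem_II] at hf ⊢
  have h1 : tr C g f = Finsupp.mapDomain (fun x => g * x) f := by
    show Finsupp.domCongr (Equiv.mulLeft g) f = _
    rw [Finsupp.domCongr_apply, Finsupp.equivMapDomain_eq_mapDomain]
    rfl
  rw [h1, ← Finsupp.mapDomain_comp]
  have h2 : ((QuotientGroup.mk : Γ → Γ ⧸ Δ) ∘ fun x => g * x) =
      (fun y : Γ ⧸ Δ => g • y) ∘ (QuotientGroup.mk : Γ → Γ ⧸ Δ) := by
    funext x
    rfl
  rw [h2, Finsupp.mapDomain_comp, hf, Finsupp.mapDomain_zero]

/-- the normal subgroup defined by a subgroup of the top group -/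
noncomputable def JJ (C : Type) [CommGroup C] (Δ : Subgroup Γ) : Subgroup (WW C Γ) where
  carrier := {g | g.right = 1 ∧ Multiplicative.toAdd g.left ∈ II C Δ}
  one_mem' := ⟨rfl, zero_mem _⟩
  mul_mem' := by
    rintro g h ⟨h1, h2⟩ ⟨h3, h4⟩
    refine ⟨?_, ?_⟩
    · show g.right * h.right = 1
      rw [h1, h3, one_mul]
    · show Multiplicative.toAdd (g.left * (wact C Γ g.right h.left)) ∈ II C Δ
      rw [h1, map_one, toAdd_mul]
      exact add_mem h2 h4
  inv_mem' := by
    rintro g ⟨h1, h2⟩
    refine ⟨?_, ?_⟩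
    · show g.right⁻¹ = 1
      rw [h1, inv_one]
    · show Multiplicative.toAdd (wact C Γ g.right⁻¹ g.left⁻¹) ∈ II C Δ
      rw [h1, inv_one, map_one]
      show Multiplicative.toAdd (g.left⁻¹) ∈ II C Δ
      rw [toAdd_inv]
      exact neg_mem h2

lemma JJ_normal (Δ : Subgroup Γ) : (JJ C Δ).Normal := by
  refine ⟨fun g hg x => ?_⟩
  obtain ⟨u, k, rfl⟩ : ∃ (u : Multiplicative (DD C Γ)) (k : Γ),
      x = SemidirectProduct.inl u * SemidirectProduct.inr k :=
    ⟨x.left, x.right, (SemidirectProduct.inl_left_mul_inr_right x).symm⟩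
  obtain ⟨v, rfl⟩ : ∃ v : Multiplicative (DD C Γ), g = SemidirectProduct.inl v :=
    ⟨g.left, SemidirectProduct.ext rfl hg.1⟩
  have hv : Multiplicative.toAdd v ∈ II C Δ := hg.2
  have e3 : (SemidirectProduct.inl u * SemidirectProduct.inr k) * SemidirectProduct.inl v *
      (SemidirectProduct.inl u * SemidirectProduct.inr k : WW C Γ)⁻¹ =
      SemidirectProduct.inl (u * (wact C Γ k v) * u⁻¹) := by
    rw [mul_inv_rev, map_mul, map_mul, SemidirectProduct.inl_aut, map_inv, map_inv]
    simp only [mul_assoc]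
  rw [e3, mul_right_comm, mul_inv_cancel, one_mul]
  exact ⟨rfl, tr_mem_II hv k⟩

lemma mem_JJ_iff (c : C) (hc : c ≠ 1) (Δ : Subgroup Γ) (δ : Γ) :
    (SemidirectProduct.inl (Multiplicative.ofAdd (Finsupp.single δ (Additive.ofMul c) -
      Finsupp.single 1 (Additive.ofMul c))) : WW C Γ) ∈ JJ C Δ ↔ δ ∈ Δ := by
  have h0 : (SemidirectProduct.inl (Multiplicative.ofAdd (Finsupp.single δ (Additive.ofMul c) -
      Finsupp.single 1 (Additive.ofMul c))) : WW C Γ) ∈ JJ C Δ ↔
      (Finsupp.single δ (Additive.ofMul c) - Finsupp.single 1 (Additive.ofMul c) : DD C Γ) ∈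
        II C Δ := ⟨fun h => h.2, fun h => ⟨rfl, h⟩⟩
  have h1 : (Finsupp.single δ (Additive.ofMul c) - Finsupp.single 1 (Additive.ofMul c) :
      DD C Γ) ∈ II C Δ ↔ Finsupp.single (δ : Γ ⧸ Δ) (Additive.ofMul c) =
        Finsupp.single ((1 : Γ) : Γ ⧸ Δ) (Additive.ofMul c) := by
    show Finsupp.mapDomain.addMonoidHom (M := Additive C) (QuotientGroup.mk : Γ → Γ ⧸ Δ) _ = 0 ↔ _
    rw [map_sub, sub_eq_zero]
    show Finsupp.mapDomain _ _ = Finsupp.mapDomain _ _ ↔ _
    rw [Finsupp.mapDomain_single, Finsupp.mapDomain_single]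
  have hc' : Additive.ofMul c ≠ 0 := fun h => hc (Additive.ofMul.injective h)
  rw [h0, h1, Finsupp.single_left_inj hc', QuotientGroup.eq, mul_one, inv_mem_iff]

lemma WW_fg (c : C) (hc : Subgroup.zpowers c = ⊤) (hΓ : Group.FG Γ) : Group.FG (WW C Γ) := by
  classical
  obtain ⟨s, hs⟩ := Group.fg_def.1 hΓ
  rw [Group.fg_def]
  refine ⟨insert (SemidirectProduct.inl (Multiplicative.ofAdd (Finsupp.single 1
    (Additive.ofMul c)))) (s.image SemidirectProduct.inr), ?_⟩
  rw [eq_top_iff]
  obtain ⟨U, hU⟩ : ∃ U : Set (WW C Γ), U =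
    ((insert (SemidirectProduct.inl (Multiplicative.ofAdd (Finsupp.single 1
    (Additive.ofMul c)))) (s.image SemidirectProduct.inr) : Finset (WW C Γ)) : Set (WW C Γ)) :=
    ⟨_, rfl⟩
  rw [← hU]
  have h1 : ∀ g : Γ, (SemidirectProduct.inr g : WW C Γ) ∈ Subgroup.closure U := by
    intro g
    have : (⊤ : Subgroup Γ) ≤ (Subgroup.closure U).comap
        (SemidirectProduct.inr : Γ →* WW C Γ) := by
      rw [← hs, Subgroup.closure_le]
      intro x hx
      apply Subgroup.subset_closure
      rw [hU, Finset.coe_insert]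
      exact Or.inr (Finset.mem_coe.2 (Finset.mem_image.2 ⟨x, hx, rfl⟩))
    exact this (Subgroup.mem_top g)
  have h2 : (SemidirectProduct.inl (Multiplicative.ofAdd (Finsupp.single 1
    (Additive.ofMul c))) : WW C Γ) ∈ Subgroup.closure U := by
    apply Subgroup.subset_closure
    rw [hU, Finset.coe_insert]
    exact Or.inl rfl
  have h3 : ∀ g : Γ, (SemidirectProduct.inl (Multiplicative.ofAdd (Finsupp.single g
    (Additive.ofMul c))) : WW C Γ) ∈ Subgroup.closure U := by
    intro g
    have h4 := mul_mem (mul_mem (h1 g) h2) (inv_mem (h1 g))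
    rw [← map_inv, ← SemidirectProduct.inl_aut] at h4
    have h5 : wact C Γ g (Multiplicative.ofAdd (Finsupp.single 1 (Additive.ofMul c))) =
        Multiplicative.ofAdd (Finsupp.single g (Additive.ofMul c)) := by
      show Multiplicative.ofAdd (tr C g (Finsupp.single 1 (Additive.ofMul c))) = _
      rw [tr_single, mul_one]
    rwa [h5] at h4
  have h4 : ∀ (g : Γ) (d : Additive C), (SemidirectProduct.inl (Multiplicative.ofAdd
      (Finsupp.single g d)) : WW C Γ) ∈ Subgroup.closure U := by
    intro g d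
    have hd : Additive.toMul d ∈ Subgroup.zpowers c := by rw [hc]; trivial
    obtain ⟨n, hn⟩ := hd
    have h5 := zpow_mem (h3 g) n
    rw [← map_zpow, ← ofAdd_zsmul, Finsupp.smul_single] at h5
    have h6 : n • Additive.ofMul c = d := by
      apply Additive.toMul.injective
      rw [← hn]
      rfl
    rwa [h6] at h5
  have h5 : ∀ f : DD C Γ, (SemidirectProduct.inl (Multiplicative.ofAdd f) : WW C Γ) ∈
      Subgroup.closure U := by
    intro f
    induction f using Finsupp.induction_linear with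
    | zero =>
      rw [ofAdd_zero, map_one]
      exact one_mem _
    | add f g hf hg =>
      rw [ofAdd_add, map_mul]
      exact mul_mem hf hg
    | single a b => exact h4 a b
  intro x _
  rw [← SemidirectProduct.inl_left_mul_inr_right x]
  exact mul_mem (h5 (Multiplicative.toAdd x.left)) (h1 _)

lemma WW_inProd {SU SW : Set (FreeGroup ℕ)} (hU : InVar SU C) (hW : InVar SW Γ) :
    InProd SU SW (WW C Γ) := by
  refine ⟨(SemidirectProduct.rightHom : WW C Γ →* Γ).ker, inferInstance, ?_, ?_⟩
  · let ψ : (SemidirectProduct.rightHom : WW C Γ →* Γ).ker →* (Γ → C) :=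
      { toFun := fun g x => Additive.toMul ((Multiplicative.toAdd (g : WW C Γ).left) x)
        map_one' := rfl
        map_mul' := by
          rintro ⟨g, hg⟩ ⟨h, hh⟩
          have h1 : g.right = 1 := hg
          funext x
          show Additive.toMul ((Multiplicative.toAdd (g.left * (wact C Γ g.right h.left))) x) = _
          rw [h1, map_one]
          rfl }
    refine (InVar.pi fun _ => hU : InVar SU (Γ → C)).of_injective ψ ?_
    rintro ⟨g, hg⟩ ⟨h, hh⟩ hgh
    have h1 : g.right = 1 := hg
    have h2 : h.right = 1 := hh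
    apply Subtype.ext
    apply SemidirectProduct.ext
    · apply Multiplicative.toAdd.injective
      apply Finsupp.ext
      intro x
      exact congrFun hgh x
    · show g.right = h.right
      rw [h1, h2]
  · exact hW.of_injective (QuotientGroup.kerLift _) (QuotientGroup.kerLift_injective _)

end

/-- in a small product variety, the finitely generated groups in the second factor have fewer than
continuum many subgroups -/
theorem SmallProd.few_subgroups {SU SW : Set (FreeGroup ℕ)} (hS : SmallProd SU SW)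
    (hU : ∃ (C : Type) (_ : CommGroup C) (c : C), c ≠ 1 ∧ Subgroup.zpowers c = ⊤ ∧ InVar SU C)
    {Γ : Type} [Group Γ] (hΓ : Group.FG Γ) (hW : InVar SW Γ) (f : Set ℕ → Subgroup Γ)
    (hf : Function.Injective f) : False := by
  obtain ⟨C, _, c, hc1, hc2, hC⟩ := hU
  refine hS.few_normal (WW_fg c hc2 hΓ) (WW_inProd hC hW) (fun s => JJ C (f s))
    (fun s => JJ_normal _) ?_
  intro s t hst
  apply hf
  ext δ
  rw [← mem_JJ_iff c hc1 (f s) δ, ← mem_JJ_iff c hc1 (f t) δ]
  have : JJ C (f s) = JJ C (f t) := hst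
  rw [this]

end Pool.Agent.SmallVar.Prod
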